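import Pool.Agent.W190.W.W17

/-! # Extreme values of `M(u)/√u` and `L(u)/√u` in every window `[x, x^(1+e)]`

Unconditional lower bounds of Ingham and Bessel type, with the exact constants coming from the zeros of
zeta, which hold in EVERY window `[x, x^(1+e)]`, `x` large, and not only along a sequence. -/

set_option autoImplicit false

open Complex Filter Topology Set

namespace Pool.Agent.Results.MP_a499ba_nt.WindowExtremes

/-- `M(u) = ∑_{n ≤ u} μ(n)` -/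
noncomputable def M (u : ℝ) : ℝ := ∑ n ∈ Finset.Icc 1 ⌊u⌋₊, ((ArithmeticFunction.moebius n : ℤ) : ℝ)

/-- `L(u) = ∑_{n ≤ u} λ(n)`, `λ(n) = (-1)^Ω(n)` -/
noncomputable def L (u : ℝ) : ℝ := ∑ n ∈ Finset.Icc 1 ⌊u⌋₊, (-1 : ℝ) ^ ArithmeticFunction.cardFactors n

/-- `∑_{l ∈ S} p(l) e^{i l w}` is real and nonnegative for every real `w`, with constant term `1` -/
def TrigPos (S : Finset ℝ) (p : ℝ → ℂ) : Prop :=
  (0:ℝ) ∈ S ∧ p 0 = 1 ∧ ∀ w : ℝ, (∑ l ∈ S, p l * cexp (l * I * w)).im = 0 ∧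
    0 ≤ (∑ l ∈ S, p l * cexp (l * I * w)).re

open scoped Classical in
/-- `1/(ρ ζ'(ρ))` if `ρ = 1/2 + i g` is a zero of zeta, and `0` otherwise -/
noncomputable def cM (g : ℝ) : ℂ :=
  if riemannZeta (1 / 2 + g * I) = 0 then
    1 / ((1 / 2 + g * I) * deriv riemannZeta (1 / 2 + g * I)) else 0

open scoped Classical in
/-- `ζ(2ρ)/(ρ ζ'(ρ))` if `ρ = 1/2 + i g` is a zero of zeta, `1/ζ(1/2)` for `g = 0`, and `0` otherwise -/
noncomputable def cL (g : ℝ) : ℂ :=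
  if riemannZeta (1 / 2 + g * I) = 0 then
    riemannZeta (2 * (1 / 2 + g * I)) / ((1 / 2 + g * I) * deriv riemannZeta (1 / 2 + g * I)) else
    if g = 0 then 1 / riemannZeta (1 / 2) else 0

/-- the nontrivial zeros of zeta -/
def NT : Set ℂ := {ρ : ℂ | riemannZeta ρ = 0 ∧ 0 < ρ.re}

theorem L_eq (u : ℝ) : L u = Pool.Agent.W190.W.Lx u := by
  unfold L Pool.Agent.W190.W.Lx
  refine Finset.sum_congr rfl fun n hn => ?_
  have hn0 : n ≠ 0 := by
    have := (Finset.mem_Icc.1 hn).1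
    omega
  rw [ArithmeticFunction.liouville_apply hn0]
  push_cast
  rfl

theorem result (e : ℝ) (he : 0 < e) :
    -- one-sided extreme values of `M` in every window
    (∀ s : ℝ, s = 1 ∨ s = -1 → ∀ (S : Finset ℝ) (p : ℝ → ℂ), TrigPos S p →
      ∀ κ : ℝ, κ < s * (∑ l ∈ S, p l * cM (-l)).re →
        ∀ᶠ x : ℝ in atTop, ∃ u : ℝ, x < u ∧ u ≤ x ^ (1 + e) ∧ κ * √u < s * M u) ∧
    -- mean squares of `L` on one sequence of windows
    (∀ C : ℝ, (∃ᶠ x : ℝ in atTop, (∫ u in x..(x ^ (1 + e)), (L u / u) ^ 2) ≤ C * (e * Real.log x)) →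
      RiemannHypothesis ∧ (∀ ρ ∈ NT, deriv riemannZeta ρ ≠ 0) ∧
      Summable (fun ρ : NT => ‖riemannZeta (2 * ρ) / (ρ * deriv riemannZeta ρ)‖ ^ 2) ∧
      1 / ‖riemannZeta (1 / 2)‖ ^ 2 +
        ∑' ρ : NT, ‖riemannZeta (2 * ρ) / (ρ * deriv riemannZeta ρ)‖ ^ 2 ≤ C) ∧
    -- one-sided bounds for `L` on such a sequence
    (∀ C κ s : ℝ, (∃ᶠ x : ℝ in atTop, (∫ u in x..(x ^ (1 + e)), (L u / u) ^ 2) ≤ C * (e * Real.log x) ∧
        ∀ u : ℝ, x < u → u ≤ x ^ (1 + e) → s * L u ≤ κ * √u) →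
      ∀ (S : Finset ℝ) (p : ℝ → ℂ), TrigPos S p → s * (∑ l ∈ S, p l * cL (-l)).re ≤ κ) := by
  have hL : ∀ u, L u = Pool.Agent.W190.W.Lx u := L_eq
  refine ⟨fun s hs S p hP κ hκ => Pool.Agent.W190.W.M_one_sided he hs hP hκ, fun C hC => ?_,
    fun C κ s h S p hP => ?_⟩
  · simp only [hL] at hC
    obtain ⟨h1, h2, h3⟩ := Pool.Agent.W190.W.L_main he hC
    have h0 : 0 ≤ 1 / ‖riemannZeta (1 / 2)‖ ^ 2 := by positivity
    have hsum : ∀ u : Finset NT, ∑ ρ ∈ u, ‖riemannZeta (2 * ρ) / (ρ * deriv riemannZeta ρ)‖ ^ 2 ≤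
        C - 1 / ‖riemannZeta (1 / 2)‖ ^ 2 := by
      intro u
      have h4 := h3 (u.map (Function.Embedding.subtype _)) (fun ρ hρ => by
        rw [Finset.mem_map] at hρ
        obtain ⟨ρ', -, rfl⟩ := hρ
        exact ρ'.2)
      rw [Finset.sum_map] at h4
      simp only [Function.Embedding.subtype_apply] at h4
      linarith
    refine ⟨h1, fun ρ hρ => h2 ρ hρ.1 hρ.2, summable_of_sum_le (fun ρ => by positivity) hsum, ?_⟩
    have h5 := Real.tsum_le_of_sum_le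
      (f := fun ρ : NT => ‖riemannZeta (2 * ρ) / (ρ * deriv riemannZeta ρ)‖ ^ 2) (fun ρ => by positivity) hsum
    linarith
  · simp only [hL] at h
    exact Pool.Agent.W190.W.L_one he hP h

end Pool.Agent.Results.MP_a499ba_nt.WindowExtremes
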